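import Pool.Agent.Lib.MP_bb1fdc_al.Fn.Lower
import Pool.Agent.Lib.MP_bb1fdc_al.Fn.Upper
import Pool.Agent.Lib.MP_bb1fdc_al.KeyFact

/-!
# The second comparison
-/

namespace Pool.Agent.Lib.MP_bb1fdc_al.Fn

open Nat

/-- Take `i` with `c ^ (sg A i) (sg B i)! < (sg A i)!` for a large `c` and `m = 30 * md A i`. -/
theorem key_lt {A B : Sz} (h : ∀ c : ℕ, ∃ i, c ≤ i ∧ c ^ sg A i * (sg B i)! < (sg A i)!)
    (D : ℕ) (hD : 1 ≤ D) :
    ∃ m, 1 ≤ m ∧ lefGrowth {tE B, aE B} (D * m) < lefGrowth {tE A, aE A} m := by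
  obtain ⟨i, hci, hi⟩ := h (2 ^ (960 * D) + 180 * D + 2)
  have h10 : 1 ≤ 2 ^ (960 * D) := Nat.one_le_two_pow
  have h8 := eight_le_r i
  have hir : i ≤ r i := r_strictMono.le_apply
  have hmd : md A i = r i * sg A i := rfl
  have h2s := two_le_sg A i
  have hmdN := md_le_NN A i
  have hrN : r i ≤ md A i := by
    rw [hmd]
    exact Nat.le_mul_of_pos_right _ (by omega)
  have hDN : md A i ≤ D * md A i := Nat.le_mul_of_pos_left _ (by omega)
  have hr1 : r (i + 1) = r i * (NN i)! := rfl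
  have h4 : 4 ≤ sg A i := by
    by_contra hlt
    have h5 : (sg A i)! ≤ 3 ! := Nat.factorial_le (by omega)
    have h6 : (2 ^ (960 * D) + 180 * D + 2) ^ 1 ≤ (2 ^ (960 * D) + 180 * D + 2) ^ sg A i :=
      Nat.pow_le_pow_right (by omega) (by omega)
    have h7 : (2 ^ (960 * D) + 180 * D + 2) ^ sg A i ≤
        (2 ^ (960 * D) + 180 * D + 2) ^ sg A i * (sg B i)! :=
      Nat.le_mul_of_pos_right _ (Nat.factorial_pos _)
    have h9 : (3 : ℕ)! = 6 := by decide
    rw [pow_one] at h6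
    omega
  have hidx : 6 * (D * (30 * md A i)) + 2 ≤ r (i + 1) := by
    have h1 : NN i * (180 * D + 1) ≤ (NN i)! := by
      obtain ⟨k, hk⟩ : ∃ k, NN i = k + 2 := ⟨NN i - 2, by omega⟩
      have h2 : 180 * D + 1 ≤ k + 1 := by
        omega
      calc NN i * (180 * D + 1) ≤ NN i * (k + 1) := Nat.mul_le_mul_left _ h2
        _ ≤ NN i * (k + 1)! := Nat.mul_le_mul_left _ (Nat.self_le_factorial _)
        _ = (NN i)! := by
          rw [hk]
          exact (Nat.factorial_succ (k + 1)).symm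
    have h3 : (NN i)! ≤ r (i + 1) := by
      rw [hr1]
      exact Nat.le_mul_of_pos_left _ (by omega)
    have h4 : 6 * (D * (30 * md A i)) + 2 ≤ NN i * (180 * D + 1) := by
      have h5 : md A i * (180 * D + 1) ≤ NN i * (180 * D + 1) := Nat.mul_le_mul_right _ hmdN
      have : md A i * (180 * D + 1) = 6 * (D * (30 * md A i)) + md A i := by ring
      omega
    exact h4.trans (h1.trans h3)
  refine ⟨30 * md A i, by omega, ?_⟩
  have hn : 1 ≤ D * (30 * md A i) := Nat.mul_pos (by omega) (by omega)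
  have hle : D * md A i ≤ D * (30 * md A i) := Nat.mul_le_mul_left _ (by omega)
  have hri : r i ≤ 6 * (D * (30 * md A i)) + 2 := by omega
  have hsn : sn B i (D * (30 * md A i)) ≤ sg B i := min_le_left _ _
  calc lefGrowth {tE B, aE B} (D * (30 * md A i)) ≤ ub B i (D * (30 * md A i)) :=
        lefGrowth_le_ub B hidx
    _ ≤ ((sn B i (D * (30 * md A i)))!) ^ r i * 2 ^ (32 * (D * (30 * md A i))) := ub_le B hn hri
    _ ≤ ((sg B i)!) ^ r i * 2 ^ (32 * (D * (30 * md A i))) :=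
      Nat.mul_le_mul_right _ (Nat.pow_le_pow_left (Nat.factorial_le hsn) _)
    _ = ((2 ^ (960 * D)) ^ sg A i * (sg B i)!) ^ r i := by
      rw [mul_pow, ← pow_mul, ← pow_mul, hmd, Nat.mul_comm]
      congr 2
      ring
    _ < ((sg A i)!) ^ r i := by
      refine Nat.pow_lt_pow_left (lt_of_le_of_lt ?_ hi) (by omega)
      exact Nat.mul_le_mul_right _ (Nat.pow_le_pow_left (by omega) _)
    _ ≤ lefGrowth {tE A, aE A} (30 * md A i) :=
      factorial_le_lefGrowth A h4 le_rfl (by rw [hmd])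

end Pool.Agent.Lib.MP_bb1fdc_al.Fn
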