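import Pool.Agent.Lib.MP_bb1fdc_al.Fn.KeyLe
import Pool.Agent.Lib.MP_bb1fdc_al.Fn.KeyLt

/-!
# The exact order of the growth types
-/

namespace Pool.Agent.Lib.MP_bb1fdc_al.Fn

open Nat

/-- the criterion -/
def Crit (A B : Sz) : Prop := ∃ C : ℕ, ∀ i, (sg A i)! ≤ C ^ sg A i * (sg B i)!

theorem crit_refl (A : Sz) : Crit A A := ⟨1, fun i => by simp⟩

private theorem crit_mono {A : Sz} {S : Set (Gam A)} (hS : FinGen S) {m n : ℕ} (h : m ≤ n) :
    lefGrowth S m ≤ lefGrowth S n :=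
  lefGrowth_mono (isLEF_Gam A) hS.1 h

theorem not_crit {A B : Sz} (h : ¬ Crit A B) (c : ℕ) :
    ∃ i, c ≤ i ∧ c ^ sg A i * (sg B i)! < (sg A i)! := by
  by_contra hcon
  push Not at hcon
  refine h ⟨c + ∑ i ∈ Finset.range c, (sg A i)!, fun i => ?_⟩
  rcases le_or_gt c i with hi | hi
  · exact (hcon i hi).trans (Nat.mul_le_mul_right _ (Nat.pow_le_pow_left (by omega) _))
  · have h1 : (sg A i)! ≤ ∑ i ∈ Finset.range c, (sg A i)! :=
      Finset.single_le_sum (f := fun i => (sg A i)!) (fun _ _ => Nat.zero_le _)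
        (Finset.mem_range.2 hi)
    have h2 : 0 < (sg A i)! := Nat.factorial_pos _
    have h3 := two_le_sg A i
    calc (sg A i)! ≤ (c + ∑ i ∈ Finset.range c, (sg A i)!) ^ 1 := by
          rw [pow_one]
          omega
      _ ≤ (c + ∑ i ∈ Finset.range c, (sg A i)!) ^ sg A i :=
        Nat.pow_le_pow_right (by omega) (by omega)
      _ ≤ _ := Nat.le_mul_of_pos_right _ (Nat.factorial_pos _)

/-- (`lefGrowth_one_le` for `0 < x ≤ 1`; for `x > 1` and `n = ⌈x⌉` large `key_le`; for the finitely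
many remaining `n` the constant `C` is chosen so large that the right side, which is at least
`2 ^ L` at `3 * L`, is at least the value of the left side at `n`) -/
theorem prec_of_crit {A B : Sz} (h : Crit A B) :
    Prec (lefGrowth {tE A, aE A}) (lefGrowth {tE B, aE B}) := by
  obtain ⟨c, hc⟩ := h
  have hAB : ∀ i, 0 ≤ i → (sg A i)! ≤ (2 ^ c) ^ sg A i * (sg B i)! := fun i _ =>
    (hc i).trans (Nat.mul_le_mul_right _ (Nat.pow_le_pow_left (Nat.lt_two_pow_self).le _))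
  have hgm : ∀ m n : ℕ, m ≤ n → lefGrowth {tE B, aE B} m ≤ lefGrowth {tE B, aE B} n :=
    fun m n hmn => crit_mono (finGen_gen B) hmn
  have hfm : ∀ m n : ℕ, m ≤ n → lefGrowth {tE A, aE A} m ≤ lefGrowth {tE A, aE A} n :=
    fun m n hmn => crit_mono (finGen_gen A) hmn
  set L := lefGrowth {tE A, aE A} (r 0) with hL
  set K := 768 * c + 3072 with hK
  refine ⟨2 * (K : ℝ) + 3 * (L : ℝ), by positivity, fun x hx => ?_⟩
  rcases le_or_gt x 1 with h1 | h1
  · have hx1 : ⌈x⌉₊ = 1 := by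
      apply le_antisymm
      · exact Nat.ceil_le.2 (by exact_mod_cast h1)
      · exact Nat.succ_le_of_lt (Nat.ceil_pos.2 hx)
    rw [hx1]
    refine (lefGrowth_one_le A B).trans (hgm _ _ ?_)
    exact Nat.succ_le_of_lt (Nat.ceil_pos.2 (by positivity))
  · have hn1 : 1 ≤ ⌈x⌉₊ := Nat.succ_le_of_lt (Nat.ceil_pos.2 hx)
    have hlt : (⌈x⌉₊ : ℝ) < 2 * x := by
      have := Nat.ceil_lt_add_one hx.le
      linarith
    by_cases hb' : r 0 < 6 * ⌈x⌉₊ + 2
    · refine (key_le hAB hn1 hb').trans (hgm _ _ ?_)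
      have : ((K * ⌈x⌉₊ : ℕ) : ℝ) ≤ (2 * (K : ℝ) + 3 * (L : ℝ)) * x := by
        push_cast
        have hL0 : (0 : ℝ) ≤ 3 * (L : ℝ) * x := by positivity
        have hK0 : (0 : ℝ) ≤ (K : ℝ) := Nat.cast_nonneg K
        have hK1 : (K : ℝ) * (⌈x⌉₊ : ℝ) ≤ (K : ℝ) * (2 * x) :=
          mul_le_mul_of_nonneg_left hlt.le hK0
        linarith
      exact_mod_cast this.trans (Nat.le_ceil _)
    · have h2 : lefGrowth {tE A, aE A} ⌈x⌉₊ ≤ L := hfm _ _ (by omega)
      refine h2.trans ((Nat.lt_two_pow_self (n := L)).le.trans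
        ((two_pow_le_lefGrowth B (L := L) (R := 3 * L) le_rfl).trans (hgm _ _ ?_)))
      have : ((3 * L : ℕ) : ℝ) ≤ (2 * (K : ℝ) + 3 * (L : ℝ)) * x := by
        push_cast
        have hL0 : (0 : ℝ) ≤ 3 * (L : ℝ) := by positivity
        have hK0 : (0 : ℝ) ≤ (K : ℝ) := Nat.cast_nonneg K
        have h5 : (2 * (K : ℝ) + 3 * (L : ℝ)) * 1 ≤ (2 * (K : ℝ) + 3 * (L : ℝ)) * x :=
          mul_le_mul_of_nonneg_left h1.le (by linarith)
        linarith
      exact_mod_cast this.trans (Nat.le_ceil _)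

/-- the comparison on the natural numbers, for all finite generating sets -/
theorem nat_iff_crit {A B : Sz} {S : Set (Gam A)} {T : Set (Gam B)} (hS : FinGen S)
    (hT : FinGen T) :
    (∃ C : ℕ, ∀ n, 1 ≤ n → lefGrowth S n ≤ lefGrowth T (C * n)) ↔ Crit A B := by
  constructor
  · rintro ⟨C, hC⟩
    by_contra hinf
    obtain ⟨C1, hC1, h1⟩ := exists_lefGrowth_le (isLEF_Gam A) (finGen_gen A) hS
    obtain ⟨C2, hC2, h2⟩ := exists_lefGrowth_le (isLEF_Gam B) hT (finGen_gen B)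
    obtain ⟨m, hm1, hm⟩ := key_lt (not_crit hinf) (C2 * (C * C1) + 1) (by omega)
    have h3 : lefGrowth {tE A, aE A} m ≤ lefGrowth {tE B, aE B} ((C2 * (C * C1) + 1) * m) :=
      calc lefGrowth {tE A, aE A} m ≤ lefGrowth S (C1 * m) := h1 m
        _ ≤ lefGrowth T (C * (C1 * m)) := hC _ (Nat.mul_pos (by omega) (by omega))
        _ ≤ lefGrowth {tE B, aE B} (C2 * (C * (C1 * m))) := h2 _
        _ ≤ lefGrowth {tE B, aE B} ((C2 * (C * C1) + 1) * m) :=
          crit_mono (finGen_gen B) (by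
            have : (C2 * (C * C1) + 1) * m = C2 * (C * (C1 * m)) + m := by ring
            omega)
    omega
  · intro hfin
    obtain ⟨C, hC0, hC⟩ := prec_of_crit hfin
    obtain ⟨C1, hC1, h1⟩ := exists_lefGrowth_le (isLEF_Gam A) hS (finGen_gen A)
    obtain ⟨C2, hC2, h2⟩ := exists_lefGrowth_le (isLEF_Gam B) (finGen_gen B) hT
    refine ⟨C2 * (⌈C⌉₊ * C1), fun n hn => ?_⟩
    have hpos : (0 : ℝ) < ((C1 * n : ℕ) : ℝ) := by
      exact_mod_cast Nat.mul_pos (by omega) (by omega)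
    have h3 := hC _ hpos
    rw [Nat.ceil_natCast] at h3
    calc lefGrowth S n ≤ lefGrowth {tE A, aE A} (C1 * n) := h1 n
      _ ≤ lefGrowth {tE B, aE B} ⌈C * ((C1 * n : ℕ) : ℝ)⌉₊ := h3
      _ ≤ lefGrowth {tE B, aE B} (⌈C⌉₊ * (C1 * n)) := by
        refine crit_mono (finGen_gen B) (Nat.ceil_le.2 ?_)
        push_cast
        have h4 : C ≤ (⌈C⌉₊ : ℝ) := Nat.le_ceil C
        have h5 : (0 : ℝ) ≤ (C1 : ℝ) * (n : ℝ) := by positivity
        exact mul_le_mul_of_nonneg_right h4 h5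
      _ ≤ lefGrowth T (C2 * (⌈C⌉₊ * (C1 * n))) := h2 _
      _ = lefGrowth T (C2 * (⌈C⌉₊ * C1) * n) := by
        congr 1
        ring

/-- the real relation implies the criterion, for all finite generating sets -/
theorem crit_of_prec {A B : Sz} {S : Set (Gam A)} {T : Set (Gam B)} (hS : FinGen S)
    (hT : FinGen T) (h : Prec (lefGrowth S) (lefGrowth T)) : Crit A B := by
  refine (nat_iff_crit hS hT).1 ?_
  obtain ⟨C, hC0, hC⟩ := h
  refine ⟨⌈C⌉₊, fun n hn => ?_⟩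
  have h1 := hC n (by exact_mod_cast hn)
  rw [Nat.ceil_natCast] at h1
  refine h1.trans (crit_mono hT (Nat.ceil_le.2 ?_))
  push_cast
  exact mul_le_mul_of_nonneg_right (Nat.le_ceil C) (Nat.cast_nonneg n)

/-- isomorphic groups have the same growth -/
theorem not_iso_of_not_crit {A B : Sz} (h : ¬ Crit A B) : IsEmpty (Gam A ≃* Gam B) := by
  refine ⟨fun e => h ?_⟩
  have hT : FinGen (e '' ({tE A, aE A} : Set (Gam A))) := by
    refine ⟨(finGen_gen A).1.image _, ?_⟩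
    have h1 := congrArg (Subgroup.map e.toMonoidHom) (closure_gen A)
    rw [MonoidHom.map_closure] at h1
    have h2 : (⊤ : Subgroup (Gam A)).map e.toMonoidHom = ⊤ := by
      rw [← MonoidHom.range_eq_map]
      exact MonoidHom.range_eq_top.2 e.surjective
    rw [h2] at h1
    exact h1
  refine (nat_iff_crit (finGen_gen A) hT).1 ⟨1, fun n _ => ?_⟩
  rw [one_mul, lefGrowth_equiv]

end Pool.Agent.Lib.MP_bb1fdc_al.Fn
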