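import Pool.Agent.Lib.MP_bb1fdc_al.Fn.Short
import Pool.Agent.Lib.MP_bb1fdc_al.Card
import Pool.Agent.Lib.MP_bb1fdc_al.WordsEmb

/-!
# Embeddings of balls
-/

namespace Pool.Agent.Lib.MP_bb1fdc_al.Fn

open Nat

/-- the bound -/
noncomputable def ub (A : Sz) (i n : ℕ) : ℕ :=
  r i * (r i * ((sn A i n)!) ^ r i) * ((6 * n + 2) * 2 ^ (6 * n + 2))

private theorem Emb_ev_prod {G H : Type} [Group G] [Group H] (t a : G × H) (w : List (Fin 3)) :
    ev t a w = 1 ↔ ev t.1 a.1 w = 1 ∧ ev t.2 a.2 w = 1 := by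
  have h1 := ev_map (MonoidHom.fst G H) t a w
  have h2 := ev_map (MonoidHom.snd G H) t a w
  simp only [MonoidHom.coe_fst, MonoidHom.coe_snd] at h1 h2
  rw [Prod.ext_iff, h1, h2]
  rfl

private theorem Emb_ev_pi {ι : Type} {G : ι → Type} [∀ k, Group (G k)] (t a : ∀ k, G k)
    (w : List (Fin 3)) : ev t a w = 1 ↔ ∀ k, ev (t k) (a k) w = 1 := by
  have h1 : ∀ k, ev t a w k = ev (t k) (a k) w := fun k => ev_map (Pi.evalMonoidHom G k) t a w
  rw [funext_iff]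
  exact forall_congr' fun k => by rw [h1 k]; rfl

private theorem Emb_ev_sub {G : Type} [Group G] (K : Subgroup G) (t a : K) (w : List (Fin 3)) :
    ev t a w = 1 ↔ ev (t : G) (a : G) w = 1 := by
  have h1 := ev_map K.subtype t a w
  simp only [Subgroup.coe_subtype] at h1
  rw [← h1]
  exact (OneMemClass.coe_eq_one).symm

/-- (the group is `(∀ k : Fin i, Perm (ZMod (md A k))) × Cl (r i * sn) (r i) × Cl (2 M) M` with
`M = 6 n + 2`; use `exists_localEmb`, `card_Cl_le` and `prod_factorial_le`) -/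
theorem exists_emb (A : Sz) {i n : ℕ} (h : 6 * n + 2 ≤ r (i + 1)) :
    ∃ (Q : Type) (_ : Group Q) (_ : Finite Q) (π : Gam A → Q),
      LocalEmb (ball {tE A, aE A} n) π ∧ Nat.card Q ≤ ub A i n := by
  have hri : 0 < r i := lt_of_lt_of_le (by norm_num) (eight_le_r i)
  have hsn := sn_pos A i n
  have hd1 : r i ∣ r i * sn A i n := Dvd.intro _ rfl
  have hd2 : 6 * n + 2 ∣ 2 * (6 * n + 2) := Dvd.intro_left _ rfl
  have : NeZero (r i * sn A i n) := ⟨(Nat.mul_pos hri hsn).ne'⟩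
  have : NeZero (2 * (6 * n + 2)) := ⟨by omega⟩
  have : ∀ k : Fin i, NeZero (md A k) := fun k => ⟨(md_pos A k).ne'⟩
  let Q : Type := (∀ k : Fin i, Equiv.Perm (ZMod (md A k))) ×
    (Cl (r i * sn A i n) (r i) hd1 × Cl (2 * (6 * n + 2)) (6 * n + 2) hd2)
  let t' : Q := (fun k => tt (md A k), (⟨tt _, tt_mem_Cl _ _ hd1⟩, ⟨tt _, tt_mem_Cl _ _ hd2⟩))
  let a' : Q := (fun k => aa (md A k) (r k),
    (⟨aa _ _, aa_mem_Cl _ _ hd1⟩, ⟨aa _ _, aa_mem_Cl _ _ hd2⟩))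
  have ha' : a' * a' = 1 := by
    refine Prod.ext (funext fun k => aa_mul_aa _ _) (Prod.ext ?_ ?_)
    · exact Subtype.ext (aa_mul_aa _ _)
    · exact Subtype.ext (aa_mul_aa _ _)
  have hw : ∀ w : List (Fin 3), w.length ≤ 3 * n →
      (ev (tE A) (aE A) w = 1 ↔ ev t' a' w = 1) := by
    intro w hw
    rw [ev_eq_one_iff_short A h w hw, Emb_ev_prod, Emb_ev_prod, Emb_ev_pi, Emb_ev_sub, Emb_ev_sub]
    exact Iff.rfl
  obtain ⟨π, hπ, -⟩ := exists_localEmb (aE_mul_aE A) ha' n hw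
  refine ⟨Q, inferInstance, inferInstance, π, hπ, ?_⟩
  have hc : Nat.card Q = (∏ k : Fin i, (md A k)!) *
      (Nat.card (Cl (r i * sn A i n) (r i) hd1) *
        Nat.card (Cl (2 * (6 * n + 2)) (6 * n + 2) hd2)) := by
    show Nat.card ((∀ k : Fin i, Equiv.Perm (ZMod (md A k))) ×
      (Cl (r i * sn A i n) (r i) hd1 × Cl (2 * (6 * n + 2)) (6 * n + 2) hd2)) = _
    rw [Nat.card_prod, Nat.card_prod, Nat.card_pi]
    congr 1
    refine Finset.prod_congr rfl fun k _ => ?_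
    rw [Nat.card_perm, Nat.card_zmod]
  have h1 : ∏ k : Fin i, (md A k)! ≤ r i := by
    refine le_trans ?_ (prod_factorial_le i)
    rw [Finset.prod_range]
    exact Finset.prod_le_prod' fun k _ => Nat.factorial_le (md_le_NN A k)
  have h2 := card_Cl_le (r i * sn A i n) (r i) hd1 hri (Nat.mul_pos hri hsn)
  have h3 := card_Cl_le (2 * (6 * n + 2)) (6 * n + 2) hd2 (by omega) (by omega)
  rw [Nat.mul_div_cancel_left _ hri] at h2
  rw [Nat.mul_div_cancel _ (by omega : 0 < 6 * n + 2), Nat.factorial_two] at h3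
  rw [hc]
  unfold ub
  rw [mul_assoc]
  exact Nat.mul_le_mul h1 (Nat.mul_le_mul h2 h3)

theorem lefGrowth_le_ub (A : Sz) {i n : ℕ} (h : 6 * n + 2 ≤ r (i + 1)) :
    lefGrowth {tE A, aE A} n ≤ ub A i n := by
  obtain ⟨Q, i1, i2, π, hπ, hc⟩ := exists_emb A h
  exact (lefGrowth_le hπ).trans hc

theorem isLEF_Gam (A : Sz) : IsLEF (Gam A) := by
  intro F hF
  choose f hf using exists_mem_ball (closure_gen A)
  have hsub : F ⊆ ball {tE A, aE A} (hF.toFinset.sup f) := by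
    intro g hg
    exact ball_mono _ (Finset.le_sup (hF.mem_toFinset.2 hg)) (hf g)
  obtain ⟨k, -, hk⟩ := exists_le_r (6 * (hF.toFinset.sup f) + 2) 0
  obtain ⟨Q, i1, i2, π, hπ, -⟩ := exists_emb A
    (hk.trans (r_strictMono.monotone (Nat.le_succ k)))
  exact ⟨Q, i1, i2, π, hπ.mono hsub⟩

end Pool.Agent.Lib.MP_bb1fdc_al.Fn
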