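import Pool.Agent.Lib.MP_bb1fdc_al.Fn.Pure
import Pool.Agent.Lib.MP_bb1fdc_al.Perm

/-!
# Faithfulness of the conjugation action
-/

namespace Pool.Agent.Lib.MP_bb1fdc_al.Fn

open Nat

private theorem faith_mem {A : Sz} {i M : ℕ} (hM : M ≤ sg A i)
    (c : Fin (r i)) (u v w z : Fin M) (h1 : u ≠ v) (h2 : u ≠ w) (h3 : v ≠ w) :
    z ∈ ({u, v, w} : Set (Fin M)) ↔
      (xE A i c u v w : Amb A) i (pos A i M c z) ≠ pos A i M c z := by
  have inj : ∀ a b : Fin M, pos A i M c a = pos A i M c b → a = b :=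
    fun a b hab => (pos_inj hM hab).2
  rw [xE_self hM c u v w h1 h2,
    com3_apply_ne_iff (fun hh => h1 (inj _ _ hh)) (fun hh => h2 (inj _ _ hh))
      (fun hh => h3 (inj _ _ hh))]
  simp only [Set.mem_insert_iff, Set.mem_singleton_iff]
  constructor
  · rintro (rfl | rfl | rfl)
    · exact Or.inl rfl
    · exact Or.inr (Or.inl rfl)
    · exact Or.inr (Or.inr rfl)
  · rintro (hh | hh | hh)
    · exact Or.inl (inj _ _ hh)
    · exact Or.inr (Or.inl (inj _ _ hh))
    · exact Or.inr (Or.inr (inj _ _ hh))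

/-- equal three-cycles for all triples force equal permutations (`com3_apply_ne_iff`,
`pos_inj`, `perm_eq_of_triples`) -/
theorem faithful {A : Sz} {i M : ℕ} (h4 : 4 ≤ M) (hM : M ≤ sg A i)
    (g g' : Fin (r i) → Equiv.Perm (Fin M))
    (h : ∀ (c : Fin (r i)) (u v w : Fin M), u ≠ v → u ≠ w → v ≠ w →
      xE A i c (g c u) (g c v) (g c w) = xE A i c (g' c u) (g' c v) (g' c w)) : g = g' := by
  funext c
  refine perm_eq_of_triples h4 _ _ (fun u v w h1 h2 h3 => ?_)
  ext z
  rw [faith_mem hM c (g c u) (g c v) (g c w) z (fun hh => h1 ((g c).injective hh))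
      (fun hh => h2 ((g c).injective hh)) (fun hh => h3 ((g c).injective hh)),
    faith_mem hM c (g' c u) (g' c v) (g' c w) z (fun hh => h1 ((g' c).injective hh))
      (fun hh => h2 ((g' c).injective hh)) (fun hh => h3 ((g' c).injective hh)),
    h c u v w h1 h2 h3]

end Pool.Agent.Lib.MP_bb1fdc_al.Fn
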