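import Pool.Agent.Lib.MP_bb1fdc_al.Fn.Params
import Pool.Agent.Lib.MP_bb1fdc_al.Cyc

/-!
# The groups
-/

namespace Pool.Agent.Lib.MP_bb1fdc_al.Fn

/-- the product of the symmetric groups of the blocks -/
abbrev Amb (A : Sz) : Type := ∀ i : ℕ, Equiv.Perm (ZMod (md A i))

/-- the shift in all blocks -/
noncomputable def tG (A : Sz) : Amb A := fun i => tt (md A i)

/-- the transposition `(0 r_i)` in all blocks -/
noncomputable def aG (A : Sz) : Amb A := fun i => aa (md A i) (r i)

/-- the group generated by them -/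
def Gam (A : Sz) : Subgroup (Amb A) := Subgroup.closure {tG A, aG A}

/-- the first generator -/
noncomputable def tE (A : Sz) : Gam A := ⟨tG A, Subgroup.subset_closure (by simp)⟩

/-- the second generator -/
noncomputable def aE (A : Sz) : Gam A := ⟨aG A, Subgroup.subset_closure (by simp)⟩

theorem aE_mul_aE (A : Sz) : aE A * aE A = 1 := by
  apply Subtype.ext
  funext i
  exact aa_mul_aa (md A i) (r i)

theorem closure_gen (A : Sz) : Subgroup.closure {tE A, aE A} = ⊤ := by
  have h : (((↑) : Gam A → Amb A) ⁻¹' {tG A, aG A}) = {tE A, aE A} := by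
    ext x
    simp only [Set.mem_preimage, Set.mem_insert_iff, Set.mem_singleton_iff, Subtype.ext_iff]
    exact Iff.rfl
  rw [← h]
  exact Subgroup.closure_closure_coe_preimage

theorem finGen_gen (A : Sz) : FinGen ({tE A, aE A} : Set (Gam A)) :=
  ⟨Set.toFinite _, closure_gen A⟩

theorem ev_coord (A : Sz) (w : List (Fin 3)) (i : ℕ) :
    ((ev (tE A) (aE A) w : Gam A) : Amb A) i = evC (md A i) (r i) w :=
  ev_map ((Pi.evalMonoidHom (fun i : ℕ => Equiv.Perm (ZMod (md A i))) i).comp (Gam A).subtype)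
    (tE A) (aE A) w

theorem ev_eq_one_iff (A : Sz) (w : List (Fin 3)) :
    ev (tE A) (aE A) w = 1 ↔ ∀ i, evC (md A i) (r i) w = 1 := by
  constructor
  · intro h i
    rw [← ev_coord, h]
    rfl
  · intro h
    apply Subtype.ext
    funext i
    rw [ev_coord, h i]
    rfl

/-- (look at block `0`: `tt` moves `0` to `1`, `aa` moves `0` to `r 0 = 8`) -/
theorem tE_ne_aE (A : Sz) : tE A ≠ aE A := by
  intro h
  have h1 : tG A 0 0 = aG A 0 0 := by
    rw [show tG A = aG A from congrArg Subtype.val h]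
  have h2 : tG A 0 0 = ((1 : ℕ) : ZMod (md A 0)) := by
    show (0 : ZMod (md A 0)) + 1 = _
    rw [zero_add, Nat.cast_one]
  have h3 : aG A 0 0 = ((8 : ℕ) : ZMod (md A 0)) := by
    show Equiv.swap (0 : ZMod (md A 0)) ((r 0 : ℕ) : ZMod (md A 0)) 0 = _
    rw [Equiv.swap_apply_left]
    rfl
  have h4 : 16 ≤ md A 0 := by
    have := two_mul_r_le_md A 0
    exact this
  rw [h2, h3, ZMod.natCast_eq_natCast_iff] at h1
  have h5 := Nat.ModEq.eq_of_lt_of_lt h1 (by omega) (by omega)
  omega

theorem isResFin_Gam (A : Sz) : IsResFin (Gam A) := by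
  intro g hg
  have h1 : ∃ i, (g : Amb A) i ≠ 1 := by
    by_contra hcon
    push Not at hcon
    exact hg (Subtype.ext (funext hcon))
  obtain ⟨i, hi⟩ := h1
  have : NeZero (md A i) := ⟨(md_pos A i).ne'⟩
  exact ⟨Equiv.Perm (ZMod (md A i)), inferInstance, inferInstance,
    (Pi.evalMonoidHom (fun i : ℕ => Equiv.Perm (ZMod (md A i))) i).comp (Gam A).subtype, hi⟩

end Pool.Agent.Lib.MP_bb1fdc_al.Fn
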