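import Pool.Agent.Lib.MP_bb1fdc_al.Fn.Lower
import Pool.Agent.Lib.MP_bb1fdc_al.Fn.Upper
import Pool.Agent.Lib.MP_bb1fdc_al.KeyFact

/-!
# The first comparison
-/

namespace Pool.Agent.Lib.MP_bb1fdc_al.Fn

open Nat

/-- ceiling division -/
private theorem keyLe_ceil {a d : ℕ} (hd : 0 < d) : ∃ k, a ≤ d * k ∧ d * k ≤ a + d := by
  refine ⟨a / d + 1, ?_, ?_⟩
  · have := Nat.lt_mul_div_succ a hd
    exact this.le
  · have := Nat.mul_div_le a d
    rw [Nat.mul_add, Nat.mul_one]
    omega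

/-- `a! ≤ C ^ a b!` implies `t! ≤ C ^ t b!` for `t ≤ a` -/
theorem factorial_le_descend {C a b t : ℕ} (h : a ! ≤ C ^ a * b !) (ht : t ≤ a) :
    t ! ≤ C ^ t * b ! := by
  induction a, ht using Nat.le_induction with
  | base => exact h
  | succ a hta ih =>
    refine ih ?_
    rcases le_or_gt C (a + 1) with h1 | h1
    · have h2 : (a + 1) * a ! ≤ (a + 1) * (C ^ a * b !) := by
        rw [← Nat.factorial_succ]
        refine h.trans ?_
        rw [pow_succ]
        calc C ^ a * C * b ! = C * (C ^ a * b !) := by ring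
          _ ≤ (a + 1) * (C ^ a * b !) := Nat.mul_le_mul_right _ h1
      exact Nat.le_of_mul_le_mul_left h2 (Nat.succ_pos a)
    · calc a ! ≤ a ^ a := Nat.factorial_le_pow a
        _ ≤ C ^ a := Nat.pow_le_pow_left (by omega) _
        _ ≤ C ^ a * b ! := Nat.le_mul_of_pos_right _ (Nat.factorial_pos _)

/-- Take the index `i` of `exists_index`, `8 n ≥ r i`, `ub A i n ≤ (sn!) ^ (r i) 2 ^ (32 n)`.
Let `M = sn + ⌈32 n / r i⌉`, `r i * M ≤ 64 n`, `4 ≤ M`.  If `M ≤ sg B i` use
`factorial_le_lefGrowth`; otherwise `md B i ≤ 64 n`, and `factorial_mul_le_lefGrowth` or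
`two_pow_le_lefGrowth` applies. -/
theorem key_le {A B : Sz} {i0 c : ℕ}
    (hAB : ∀ i, i0 ≤ i → (sg A i)! ≤ (2 ^ c) ^ sg A i * (sg B i)!) {n : ℕ} (hn : 1 ≤ n)
    (h : r i0 < 6 * n + 2) :
    lefGrowth {tE A, aE A} n ≤ lefGrowth {tE B, aE B} ((768 * c + 3072) * n) := by
  obtain ⟨i, hi1, hi2, hi3⟩ := exists_index hn
  have hii := hi3 i0 h
  have h8 := eight_le_r i
  refine (lefGrowth_le_ub A hi1).trans ((ub_le A hn hi2).trans ?_)
  have hrpos : 0 < r i := by omega
  have hcn : 0 ≤ c * n := Nat.zero_le _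
  have hexp : (768 * c + 3072) * n = 768 * (c * n) + 3072 * n := by ring
  rw [hexp]
  obtain ⟨k, hk1, hk2⟩ := keyLe_ceil (a := 32 * n) hrpos
  have hk4 : 4 ≤ k := by
    by_contra hlt
    have : r i * k ≤ r i * 3 := Nat.mul_le_mul_left _ (by omega)
    omega
  have hsn : sn A i n ≤ (6 * n + 2) / r i + 2 := min_le_right _ _
  have hsns : sn A i n ≤ sg A i := min_le_left _ _
  have hsn0 := sn_pos A i n
  have hrsn : r i * sn A i n ≤ 6 * n + 2 + 2 * r i := by
    calc r i * sn A i n ≤ r i * ((6 * n + 2) / r i + 2) := Nat.mul_le_mul_left _ hsn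
      _ = r i * ((6 * n + 2) / r i) + 2 * r i := by ring
      _ ≤ 6 * n + 2 + 2 * r i := by
        have := Nat.mul_div_le (6 * n + 2) (r i)
        omega
  have hM : r i * (sn A i n + k) ≤ 64 * n := by
    rw [Nat.mul_add]
    omega
  by_cases hMs : sn A i n + k ≤ sg B i
  · refine le_trans ?_ (factorial_le_lefGrowth B (M := sn A i n + k)
      (R := 768 * (c * n) + 3072 * n) (by omega) hMs (by omega))
    calc ((sn A i n)!) ^ r i * 2 ^ (32 * n) ≤ ((sn A i n)!) ^ r i * 2 ^ (r i * k) :=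
          Nat.mul_le_mul_left _ (Nat.pow_le_pow_right (by norm_num) hk1)
      _ = ((sn A i n)! * 2 ^ k) ^ r i := by
        rw [mul_pow, ← pow_mul, Nat.mul_comm k]
      _ ≤ ((sn A i n + k)!) ^ r i := Nat.pow_le_pow_left (factorial_mul_two_pow_le hsn0) _
  · have hmd : md B i ≤ 64 * n := by
      have : r i * sg B i ≤ r i * (sn A i n + k) := Nat.mul_le_mul_left _ (by omega)
      unfold md
      omega
    have hstep : (sn A i n)! ≤ (2 ^ c) ^ sn A i n * (sg B i)! :=
      factorial_le_descend (hAB i hii) hsns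
    have hpow : ((sn A i n)!) ^ r i ≤ ((sg B i)!) ^ r i * 2 ^ (24 * (c * n)) := by
      calc ((sn A i n)!) ^ r i ≤ ((2 ^ c) ^ sn A i n * (sg B i)!) ^ r i :=
            Nat.pow_le_pow_left hstep _
        _ = ((sg B i)!) ^ r i * 2 ^ (c * (r i * sn A i n)) := by
          rw [mul_pow, ← pow_mul, ← pow_mul, Nat.mul_comm]
          congr 2
          ring
        _ ≤ ((sg B i)!) ^ r i * 2 ^ (24 * (c * n)) := by
          refine Nat.mul_le_mul_left _ (Nat.pow_le_pow_right (by norm_num) ?_)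
          calc c * (r i * sn A i n) ≤ c * (24 * n) := Nat.mul_le_mul_left _ (by omega)
            _ = 24 * (c * n) := by ring
    by_cases h4 : 4 ≤ sg B i
    · have hmdpos : 0 < md B i := md_pos B i
      obtain ⟨q, hq1, hq2⟩ := keyLe_ceil (a := 24 * (c * n) + 32 * n) hmdpos
      have hq0 : 1 ≤ q := by
        rcases Nat.eq_zero_or_pos q with h0 | h0
        · subst h0
          omega
        · exact h0
      refine le_trans ?_ (factorial_mul_le_lefGrowth B (q := q)
        (R := 768 * (c * n) + 3072 * n) h4 hq0 (by omega))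
      calc ((sn A i n)!) ^ r i * 2 ^ (32 * n)
          ≤ ((sg B i)!) ^ r i * 2 ^ (24 * (c * n)) * 2 ^ (32 * n) :=
            Nat.mul_le_mul_right _ hpow
        _ = ((sg B i)!) ^ r i * 2 ^ (24 * (c * n) + 32 * n) := by
          rw [mul_assoc, ← pow_add]
        _ ≤ ((sg B i)!) ^ r i * 2 ^ (md B i * q) :=
          Nat.mul_le_mul_left _ (Nat.pow_le_pow_right (by norm_num) hq1)
    · have h6 : (sg B i)! ≤ 2 ^ 3 := by
        calc (sg B i)! ≤ 3 ! := Nat.factorial_le (by omega)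
          _ ≤ 2 ^ 3 := by decide
      refine le_trans ?_ (two_pow_le_lefGrowth B (L := 24 * (c * n) + 56 * n)
        (R := 768 * (c * n) + 3072 * n) (by omega))
      calc ((sn A i n)!) ^ r i * 2 ^ (32 * n)
          ≤ ((sg B i)!) ^ r i * 2 ^ (24 * (c * n)) * 2 ^ (32 * n) :=
            Nat.mul_le_mul_right _ hpow
        _ ≤ (2 ^ 3) ^ r i * 2 ^ (24 * (c * n)) * 2 ^ (32 * n) := by
          gcongr
        _ = 2 ^ (3 * r i + 24 * (c * n) + 32 * n) := by
          rw [← pow_mul, ← pow_add, ← pow_add]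
        _ ≤ 2 ^ (24 * (c * n) + 56 * n) := Nat.pow_le_pow_right (by norm_num) (by omega)

end Pool.Agent.Lib.MP_bb1fdc_al.Fn
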