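import Pool.Agent.Lib.MP_bb1fdc_al.Fn.LowerGen
import Pool.Agent.Lib.MP_bb1fdc_al.Fn.LampE
import Pool.Agent.Lib.MP_bb1fdc_al.Fn.Emb

/-!
# Lower bounds for the LEF growth
-/

namespace Pool.Agent.Lib.MP_bb1fdc_al.Fn

open Nat

theorem two_pow_le_lefGrowth (A : Sz) {L R : ℕ} (h : 3 * L ≤ R) :
    2 ^ L ≤ lefGrowth {tE A, aE A} R := by
  refine le_lefGrowth (isLEF_Gam A) (Set.toFinite _) ?_
  intro Q _ _ π hπ
  have hinj : Function.Injective fun f : Fin L → Bool => π (bE A L f) := by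
    intro f f' hf
    exact bE_injective A L (hπ.inj (ball_mono _ h (bE_mem_ball A L f))
      (ball_mono _ h (bE_mem_ball A L f')) hf)
  have h1 := Nat.card_le_card_of_injective _ hinj
  have h2 : Nat.card (Fin L → Bool) = 2 ^ L := by simp
  rw [h2] at h1
  exact h1

/-- (`lower_gen` with `Z = {1}`) -/
theorem factorial_le_lefGrowth (A : Sz) {i M R : ℕ} (h4 : 4 ≤ M) (hM : M ≤ sg A i)
    (h : 30 * (r i * M) ≤ R) : (M !) ^ r i ≤ lefGrowth {tE A, aE A} R := by
  refine le_lefGrowth (isLEF_Gam A) (Set.toFinite _) ?_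
  intro Q _ _ π hπ
  have h1 := lower_gen A h4 hM (l := 0) (R := R) {1} (fun z hz => by
    rw [Set.mem_singleton_iff] at hz
    rw [hz]
    exact ⟨one_mem_ball _ _, rfl⟩) (by omega) Q π hπ
  have h2 : Nat.card ({1} : Set (Gam A)) = 1 := by simp
  rw [h2, mul_one] at h1
  exact h1

/-- (`lower_gen` with `M = sg A i` and `Z` the range of `zE A (md A i * q)`) -/
theorem factorial_mul_le_lefGrowth (A : Sz) {i q R : ℕ} (h4 : 4 ≤ sg A i) (hq : 1 ≤ q)
    (h : 32 * (md A i * q) ≤ R) :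
    ((sg A i)!) ^ r i * 2 ^ (md A i * q) ≤ lefGrowth {tE A, aE A} R := by
  refine le_lefGrowth (isLEF_Gam A) (Set.toFinite _) ?_
  intro Q _ _ π hπ
  have hNq : r i * sg A i ≤ md A i * q := Nat.le_mul_of_pos_right (md A i) hq
  have hd : md A i ∣ md A i * q := Dvd.intro q rfl
  have h1 := lower_gen A h4 le_rfl (l := 8 * (md A i * q)) (R := R)
    (Set.range (zE A (md A i * q))) (fun z hz => by
      obtain ⟨f, rfl⟩ := hz
      exact ⟨zE_mem_ball A _ f, zE_coord A f hd⟩) (by omega) Q π hπ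
  have h2 : Nat.card (Set.range (zE A (md A i * q))) = 2 ^ (md A i * q) := by
    rw [Nat.card_range_of_injective (zE_injective A (md A i * q))]
    simp
  rw [h2] at h1
  exact h1

end Pool.Agent.Lib.MP_bb1fdc_al.Fn
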