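import Pool.Agent.Lib.MP_bb1fdc_al.Fn.Faith
import Pool.Agent.Lib.MP_bb1fdc_al.Fn.PureRel
import Pool.Agent.Lib.MP_bb1fdc_al.Conj

/-!
# The lower bound
-/

namespace Pool.Agent.Lib.MP_bb1fdc_al.Fn

open Nat

/-- the index type of the three-cycles of a block -/
private abbrev LowerGenTau (R M : ℕ) : Type :=
  {q : Fin R × Fin M × Fin M × Fin M // q.2.1 ≠ q.2.2.1 ∧ q.2.1 ≠ q.2.2.2 ∧ q.2.2.1 ≠ q.2.2.2}

/-- the action of the product of the symmetric groups on it -/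
private def lowerGenAct {R M : ℕ} (g : Fin R → Equiv.Perm (Fin M)) (q : LowerGenTau R M) :
    LowerGenTau R M :=
  ⟨(q.1.1, g q.1.1 q.1.2.1, g q.1.1 q.1.2.2.1, g q.1.1 q.1.2.2.2),
    fun h => q.2.1 ((g q.1.1).injective h), fun h => q.2.2.1 ((g q.1.1).injective h),
    fun h => q.2.2.2 ((g q.1.1).injective h)⟩

/-- Use `card_ge_of_conj` with `G0 = Fin (r i) → Perm (Fin M)`, `τ` the type of the
`(c, u, v, w)` with `u, v, w` distinct, `x = xE`, generators `closure_mulSingle_swap`, and `y` the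
elements `yE`; the lengths are `length_yw_le`, `length_xw_le`. -/
theorem lower_gen (A : Sz) {i M : ℕ} (h4 : 4 ≤ M) (hM : M ≤ sg A i) {l R : ℕ}
    (Z : Set (Gam A)) (hZ : ∀ z ∈ Z, z ∈ ball {tE A, aE A} l ∧ (z : Amb A) i = 1)
    (hR : l + 20 * (r i * M) ≤ R) (Q : Type) [Group Q] [Finite Q] (π : Gam A → Q)
    (hπ : LocalEmb (ball {tE A, aE A} R) π) : (M !) ^ r i * Nat.card Z ≤ Nat.card Q := by
  classical
  let gen : Set (Fin (r i) → Equiv.Perm (Fin M)) :=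
    {g | ∃ (c : Fin (r i)) (u v : Fin M), u ≠ v ∧ g = Pi.mulSingle c (Equiv.swap u v)}
  have hpt : ∀ g : Fin (r i) → Equiv.Perm (Fin M), ∃ y : Gam A, g ∈ gen →
      ∃ (c : Fin (r i)) (u v : Fin M), u ≠ v ∧ g = Pi.mulSingle c (Equiv.swap u v) ∧
        y = yE A i c u v := by
    intro g
    by_cases hg : g ∈ gen
    · obtain ⟨c, u, v, h1, h2⟩ := hg
      exact ⟨yE A i c u v, fun _ => ⟨c, u, v, h1, h2, rfl⟩⟩
    · exact ⟨1, fun h => absurd h hg⟩
  choose y hy using hpt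
  let x : LowerGenTau (r i) M → Gam A := fun q => xE A i q.1.1 q.1.2.1 q.1.2.2.1 q.1.2.2.2
  have hxb : ∀ q, x q ∈ ball {tE A, aE A} (16 * (r i * M)) := fun q =>
    ev_mem_ball _ _ (length_xw_le q.1.1.2 q.1.2.1.2 q.1.2.2.1.2 q.1.2.2.2.2
      (fun h => q.2.1 (Fin.ext h)) (fun h => q.2.2.1 (Fin.ext h)))
  have hyb : ∀ g ∈ gen, y g ∈ ball {tE A, aE A} (4 * (r i * M)) := by
    intro g hg
    obtain ⟨c, u, v, h1, -, h3⟩ := hy g hg
    rw [h3]
    exact ev_mem_ball _ _ (length_yw_le c.2 u.2 v.2 (fun h => h1 (Fin.ext h)))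
  have key := card_ge_of_conj hπ (lowerGenAct (R := r i) (M := M))
    (fun q => rfl) (fun g h q => rfl) x gen (closure_mulSingle_swap (r i) M) y
    (fun q => ball_mono _ (by omega) (hxb q))
    (fun g hg => ball_mono _ (by omega) (hyb g hg))
    (fun g hg q => ball_mono _ (by omega) (mul_mem_ball (hyb g hg) (hxb q)))
    (fun g hg q => by
      obtain ⟨c, u, v, h1, h2, h3⟩ := hy g hg
      have h5 := yE_mul_xE hM c q.1.1 u v q.1.2.1 q.1.2.2.1 q.1.2.2.2 h1 q.2.1 q.2.2.1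
      rw [← h3, ← h2] at h5
      exact h5)
    (fun g g' h => by
      refine faithful h4 hM g g' ?_
      intro c u v w h1 h2 h3
      exact h ⟨(c, u, v, w), h1, h2, h3⟩)
    Z (fun z hz => ball_mono _ (by omega) (hZ z hz).1)
    (fun z hz q => ball_mono _ (by omega) (mul_mem_ball (hZ z hz).1 (hxb q)))
    (fun z hz q => comm_xE hM q.1.1 q.1.2.1 q.1.2.2.1 q.1.2.2.2 q.2.1 q.2.2.1 z (hZ z hz).2)
  have hcard : Nat.card (Fin (r i) → Equiv.Perm (Fin M)) = (M !) ^ r i := by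
    rw [Nat.card_eq_fintype_card, Fintype.card_fun, Fintype.card_perm, Fintype.card_fin,
      Fintype.card_fin]
  rw [hcard] at key
  exact key

end Pool.Agent.Lib.MP_bb1fdc_al.Fn
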