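import Pool.Agent.Lib.MP_bb1fdc_al.Fn.Sel
import Pool.Agent.Lib.MP_bb1fdc_al.Fam

/-!
# The final statement
-/

namespace Pool.Agent.Lib.MP_bb1fdc_al.Fn

open Nat Filter

/-- The final statement. -/
theorem main (ω : ℕ → ℕ) (hω : Tendsto ω atTop atTop) :
    ∃ (Γ : Set ℕ → Type) (_ : ∀ A, Group (Γ A)) (t a : ∀ A, Γ A),
      (∀ A, FinGen {t A, a A} ∧ IsResFin (Γ A) ∧ IsLEF (Γ A)) ∧
      (∀ A n, 1 ≤ n → 2 ^ n ≤ lefGrowth {t A, a A} (3 * n) ∧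
        lefGrowth {t A, a A} n ≤ 2 ^ ((ω n + 80) * n)) ∧
      (∀ n, 1 ≤ n → lefGrowth {t ∅, a ∅} n ≤ 2 ^ (80 * n)) ∧
      (∀ A B, Prec (lefGrowth {t A, a A}) (lefGrowth {t B, a B}) ↔ (A \ B).Finite) ∧
      (∀ (A B : Set ℕ) (S : Set (Γ A)) (T : Set (Γ B)), FinGen S → FinGen T →
        (Prec (lefGrowth S) (lefGrowth T) → (A \ B).Finite) ∧
        ((∃ C : ℕ, ∀ n, 1 ≤ n → lefGrowth S n ≤ lefGrowth T (C * n)) ↔ (A \ B).Finite)) ∧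
      (∃ U : Set (Set ℕ), Cardinal.mk U = Cardinal.continuum ∧
        ∀ A ∈ U, ∀ B ∈ U, A ≠ B → (A \ B).Infinite ∧ IsEmpty (Γ A ≃* Γ B)) := by
  obtain ⟨j, hj, hjω⟩ := exists_seq ω hω
  refine ⟨fun A => Gam (sel j hj A), fun A => inferInstance, fun A => tE (sel j hj A),
    fun A => aE (sel j hj A), fun A => ⟨finGen_gen _, isResFin_Gam _, isLEF_Gam _⟩,
    fun A n hn => ⟨two_pow_le_lefGrowth _ le_rfl, lefGrowth_sel_le hj hjω A hn⟩,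
    fun n hn => lefGrowth_sel_empty_le hj hn, ?_, ?_, ?_⟩
  · intro A B
    rw [← crit_sel hj A B]
    exact ⟨crit_of_prec (finGen_gen _) (finGen_gen _), prec_of_crit⟩
  · intro A B S T hS hT
    rw [← crit_sel hj A B]
    exact ⟨crit_of_prec hS hT, nat_iff_crit hS hT⟩
  · obtain ⟨U, hU, hU2⟩ := exists_family
    refine ⟨U, hU, fun A hA B hB hAB => ⟨hU2 A hA B hB hAB, not_iso_of_not_crit ?_⟩⟩
    rw [crit_sel hj A B]
    exact hU2 A hA B hB hAB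

end Pool.Agent.Lib.MP_bb1fdc_al.Fn
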