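import Pool.Agent.Lib.MP_bb1fdc_al.Fn.Crit

/-!
# Sets of natural numbers
-/

namespace Pool.Agent.Lib.MP_bb1fdc_al.Fn

open Nat Filter

/-- a sequence of blocks so sparse that `ω` is large on their scales -/
theorem exists_seq (ω : ℕ → ℕ) (hω : Tendsto ω atTop atTop) :
    ∃ j : ℕ → ℕ, StrictMono j ∧ ∀ k n, r (j k) ≤ 6 * n + 2 → 24 * (k + 6) + 32 ≤ ω n := by
  have h : ∀ k : ℕ, ∃ N, ∀ n, N ≤ n → 24 * (k + 6) + 32 ≤ ω n := fun k =>
    eventually_atTop.1 (tendsto_atTop.1 hω (24 * (k + 6) + 32))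
  choose N hN using h
  refine ⟨fun k => k + ∑ l ∈ Finset.range (k + 1), (6 * N l + 3), ?_, ?_⟩
  · refine strictMono_nat_of_lt_succ fun k => ?_
    have h1 := Finset.sum_range_succ (fun l => 6 * N l + 3) (k + 1)
    show k + ∑ l ∈ Finset.range (k + 1), (6 * N l + 3) <
      k + 1 + ∑ l ∈ Finset.range (k + 1 + 1), (6 * N l + 3)
    omega
  · intro k n hkn
    refine hN k n ?_
    change r (k + ∑ l ∈ Finset.range (k + 1), (6 * N l + 3)) ≤ 6 * n + 2 at hkn
    have h1 := r_strictMono.le_apply (x := k + ∑ l ∈ Finset.range (k + 1), (6 * N l + 3))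
    have h2 : 6 * N k + 3 ≤ ∑ l ∈ Finset.range (k + 1), (6 * N l + 3) :=
      Finset.single_le_sum (f := fun l => 6 * N l + 3) (fun _ _ => Nat.zero_le _)
        (Finset.mem_range.2 (Nat.lt_succ_self k))
    omega

open Classical in
/-- the choice for a set: `k + 6` points in the classes of block `j k`, `k ∈ A`, and `2` points in
all others -/
noncomputable def sel (j : ℕ → ℕ) (hj : StrictMono j) (A : Set ℕ) : Sz where
  f i := if h : ∃ k, k ∈ A ∧ j k = i then h.choose + 6 else 2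
  two_le i := by
    split
    · omega
    · exact le_rfl
  le_s i := by
    split
    · next h =>
      have h1 := h.choose_spec.2
      have h2 := hj.le_apply (x := h.choose)
      unfold s
      omega
    · unfold s
      omega

theorem sg_sel_of_mem {j : ℕ → ℕ} (hj : StrictMono j) {A : Set ℕ} {k : ℕ} (hk : k ∈ A) :
    sg (sel j hj A) (j k) = k + 6 := by
  have h : ∃ k', k' ∈ A ∧ j k' = j k := ⟨k, hk, rfl⟩
  have h1 : sg (sel j hj A) (j k) = h.choose + 6 := dif_pos h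
  rw [h1, hj.injective h.choose_spec.2]

theorem sg_sel_of_not {j : ℕ → ℕ} (hj : StrictMono j) {A : Set ℕ} {i : ℕ}
    (h : ¬ ∃ k, k ∈ A ∧ j k = i) : sg (sel j hj A) i = 2 := dif_neg h

theorem sg_sel_of_notMem {j : ℕ → ℕ} (hj : StrictMono j) {A : Set ℕ} {k : ℕ} (hk : k ∉ A) :
    sg (sel j hj A) (j k) = 2 := by
  refine sg_sel_of_not hj ?_
  rintro ⟨k', hk', h⟩
  rw [hj.injective h] at hk'
  exact hk hk'

theorem crit_sel {j : ℕ → ℕ} (hj : StrictMono j) (A B : Set ℕ) :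
    Crit (sel j hj A) (sel j hj B) ↔ (A \ B).Finite := by
  constructor
  · rintro ⟨C, hC⟩
    by_contra hinf
    obtain ⟨m0, hm0⟩ := exists_pow_lt_factorial (2 * C)
    obtain ⟨k, ⟨hkA, hkB⟩, hk⟩ := (show (A \ B).Infinite from hinf).exists_gt m0
    have h1 := hC (j k)
    rw [sg_sel_of_mem hj hkA, sg_sel_of_notMem hj hkB] at h1
    have h2 := hm0 (k + 6) (by omega)
    have h3 : C ^ (k + 6) * 2 ! ≤ (2 * C) ^ (k + 6) := by
      rw [mul_pow, Nat.mul_comm]
      refine Nat.mul_le_mul_right _ ?_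
      calc 2 ! = 2 ^ 1 := by decide
        _ ≤ 2 ^ (k + 6) := Nat.pow_le_pow_right (by norm_num) (by omega)
    omega
  · intro hfin
    refine ⟨1 + ∑ k ∈ hfin.toFinset, (k + 6)!, fun i => ?_⟩
    have hone : ∀ a : ℕ, 1 ≤ (1 + ∑ k ∈ hfin.toFinset, (k + 6)!) ^ a := fun a =>
      Nat.one_le_pow _ _ (by omega)
    by_cases h : ∃ k, k ∈ A ∧ j k = i
    · obtain ⟨k, hkA, rfl⟩ := h
      rw [sg_sel_of_mem hj hkA]
      by_cases hkB : k ∈ B
      · rw [sg_sel_of_mem hj hkB]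
        exact Nat.le_mul_of_pos_left _ (hone _)
      · have h1 : (k + 6)! ≤ ∑ k ∈ hfin.toFinset, (k + 6)! :=
          Finset.single_le_sum (f := fun k => (k + 6)!) (fun _ _ => Nat.zero_le _)
            (hfin.mem_toFinset.2 ⟨hkA, hkB⟩)
        calc (k + 6)! ≤ (1 + ∑ k ∈ hfin.toFinset, (k + 6)!) ^ 1 := by
              rw [pow_one]
              omega
          _ ≤ (1 + ∑ k ∈ hfin.toFinset, (k + 6)!) ^ (k + 6) :=
            Nat.pow_le_pow_right (by omega) (by omega)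
          _ ≤ _ := Nat.le_mul_of_pos_right _ (Nat.factorial_pos _)
    · rw [sg_sel_of_not hj h]
      calc 2 ! ≤ (sg (sel j hj B) i)! := Nat.factorial_le (two_le_sg _ i)
        _ ≤ _ := Nat.le_mul_of_pos_left _ (hone _)

/-- the upper bound -/
theorem lefGrowth_sel_le {ω : ℕ → ℕ} {j : ℕ → ℕ} (hj : StrictMono j)
    (hω : ∀ k n, r (j k) ≤ 6 * n + 2 → 24 * (k + 6) + 32 ≤ ω n) (A : Set ℕ) {n : ℕ}
    (hn : 1 ≤ n) :
    lefGrowth {tE (sel j hj A), aE (sel j hj A)} n ≤ 2 ^ ((ω n + 80) * n) := by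
  obtain ⟨i, h1, h2, _⟩ := exists_index hn
  refine (lefGrowth_le_two_pow _ hn h1 h2).trans (Nat.pow_le_pow_right (by norm_num)
    (Nat.mul_le_mul_right _ ?_))
  by_cases h : ∃ k, k ∈ A ∧ j k = i
  · obtain ⟨k, hkA, rfl⟩ := h
    rw [sg_sel_of_mem hj hkA]
    have := hω k n h2
    omega
  · rw [sg_sel_of_not hj h]
    omega

/-- the exponential class -/
theorem lefGrowth_sel_empty_le {j : ℕ → ℕ} (hj : StrictMono j) {n : ℕ} (hn : 1 ≤ n) :
    lefGrowth {tE (sel j hj ∅), aE (sel j hj ∅)} n ≤ 2 ^ (80 * n) := by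
  obtain ⟨i, h1, h2, _⟩ := exists_index hn
  refine (lefGrowth_le_two_pow _ hn h1 h2).trans (Nat.pow_le_pow_right (by norm_num)
    (Nat.mul_le_mul_right _ ?_))
  rw [sg_sel_of_not hj (by rintro ⟨k, hk, -⟩; exact hk)]

end Pool.Agent.Lib.MP_bb1fdc_al.Fn
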